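import Pool.Agent.H77.PUC.StmtsE

/-!
# Board puc, block TRP: the trace of an integral function is a polynomial
-/

set_option autoImplicit false

universe u

namespace PUC

open Polynomial

theorem TRP_alg {K Ω : Type u} [Field K] [Field Ω] [Algebra K Ω]
    [Algebra (RatFunc K) Ω] [IsScalarTower K (RatFunc K) Ω] (τ : K[X]) :
    algebraMap (RatFunc K) Ω (algebraMap K[X] (RatFunc K) τ) = aeval (zz K Ω) τ := by
  unfold zz
  rw [← RatFunc.algebraMap_X, ← IsScalarTower.coe_toAlgHom' K (RatFunc K) Ω, 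
    ← IsScalarTower.coe_toAlgHom' K K[X] (RatFunc K), aeval_algHom_apply, aeval_algHom_apply,
    aeval_X_left_apply]

theorem TRP_int (hchv : SChv.{u}) {K L : Type u} [Field K] [IsAlgClosed K] [CharZero K] [Field L]
    [Algebra K L] [Algebra (RatFunc K) L] [IsScalarTower K (RatFunc K) L]
    [FiniteDimensional (RatFunc K) L] (h : L)
    (hh : ∀ P : Place K L, zz K L ∈ P.ring → h ∈ P.ring) :
    ((algebraMap (RatFunc K) L).comp (algebraMap K[X] (RatFunc K))).IsIntegralElem h := by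
  let _ : Algebra K[X] L := ((algebraMap (RatFunc K) L).comp (algebraMap K[X] (RatFunc K))).toAlgebra
  have halg : ∀ τ : K[X], algebraMap K[X] L τ = aeval (zz K L) τ := TRP_alg
  by_contra hcon
  have hR : h ∉ (integralClosure K[X] L).toSubring := fun h1 => hcon h1
  obtain ⟨V, hV1, hV2⟩ := Subring.exists_le_valuationSubring_of_isIntegrallyClosedIn hR
  have hz : ∀ τ : K[X], aeval (zz K L) τ ∈ V := by
    intro τ
    apply hV1
    rw [← halg]
    exact (integralClosure K[X] L).algebraMap_mem τ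
  have hK : ∀ c : K, algebraMap K L c ∈ V := by
    intro c
    have := hz (C c)
    rwa [aeval_C] at this
  have htop : V ≠ ⊤ := by
    rintro rfl
    exact hV2 (ValuationSubring.mem_top _)
  let P : Place K L := ⟨V, hK, hchv K L V hK htop⟩
  apply hV2
  apply hh P
  have := hz X
  rwa [aeval_X] at this

theorem sTrp (hchv : SChv.{u}) (hzpl : SZpl.{u}) : STrp.{u} := by
  intro K L _ _ _ _ _ _ _ _ h hh
  have hint := TRP_int hchv h hh
  have hτ : ∃ τ : K[X], Algebra.trace (RatFunc K) L h = algebraMap K[X] (RatFunc K) τ := by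
    let _ : Algebra K[X] L :=
      ((algebraMap (RatFunc K) L).comp (algebraMap K[X] (RatFunc K))).toAlgebra
    have _ : IsScalarTower K[X] (RatFunc K) L := IsScalarTower.of_algebraMap_eq fun _ => rfl
    have h1 : IsIntegral K[X] h := hint
    have h2 : IsIntegral K[X] (Algebra.trace (RatFunc K) L h) := Algebra.isIntegral_trace h1
    obtain ⟨τ, hτ⟩ := (IsIntegrallyClosed.isIntegral_iff (R := K[X]) (K := RatFunc K)).1 h2
    exact ⟨τ, hτ.symm⟩
  obtain ⟨τ, hτ⟩ := hτ
  let Ω := AlgebraicClosure L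
  have _ : IsScalarTower K (RatFunc K) Ω := IsScalarTower.of_algebraMap_eq fun c => by
    rw [IsScalarTower.algebraMap_apply K L Ω, IsScalarTower.algebraMap_apply (RatFunc K) L Ω,
      ← IsScalarTower.algebraMap_apply K (RatFunc K) L]
  have _ : Algebra.IsAlgebraic (RatFunc K) Ω := Algebra.IsAlgebraic.trans (RatFunc K) L Ω
  obtain ⟨hz1, hz2, -⟩ := hzpl K Ω
  have hsum : aeval (zz K Ω) τ = ∑ σ : L →ₐ[RatFunc K] Ω, σ h := by
    rw [← TRP_alg, ← hτ]
    exact trace_eq_sum_embeddings Ω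
  have hcard : Fintype.card (L →ₐ[RatFunc K] Ω) = Module.finrank (RatFunc K) L :=
    AlgHom.card (RatFunc K) L Ω
  have hzσ : ∀ σ : L →ₐ[RatFunc K] Ω, σ (zz K L) = zz K Ω := by
    intro σ
    unfold zz
    exact AlgHom.commutes σ _
  refine ⟨τ, hτ, ?_, ?_⟩
  · intro a c hc
    obtain ⟨Q, hQ1, hQ2⟩ := hz1 a
    have h3 : ∀ σ : L →ₐ[RatFunc K] Ω, σ h ∈ Q.ring ∧ Q.val (σ h) = c := by
      intro σ
      let P : Place K L := Q.comap (σ.restrictScalars K)
      have hP : zz K L ∈ P.ring := by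
        show σ (zz K L) ∈ Q.ring
        rw [hzσ]; exact hQ1
      have hPv : P.val (zz K L) = a := by
        rw [Place.val_comap]
        show Q.val (σ (zz K L)) = a
        rw [hzσ]; exact hQ2
      have h4 := hc P hP hPv
      rw [Place.val_comap] at h4
      exact ⟨hh P hP, h4⟩
    have h5 : Q.val (aeval (zz K Ω) τ) = ∑ σ : L →ₐ[RatFunc K] Ω, Q.val (σ h) := by
      rw [hsum]
      exact Q.val_sum _ _ fun σ _ => (h3 σ).1
    rw [Q.val_aeval hQ1, hQ2] at h5
    rw [h5, Finset.sum_congr rfl fun σ _ => (h3 σ).2, Finset.sum_const, Finset.card_univ, hcard,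
      nsmul_eq_mul]
  · intro hinf
    obtain ⟨Q, hQ⟩ := hz2
    have hz0 : zz K Ω ≠ 0 := by
      intro h0
      rw [h0] at hQ
      exact hQ Q.ring.zero_mem
    have hw : (zz K Ω)⁻¹ ∈ Q.ring := Q.inv_mem_of_not_mem hQ
    have hwv : Q.val (zz K Ω)⁻¹ = 0 := Q.val_inv_of_not_mem hQ
    have h3 : aeval (zz K Ω) τ / zz K Ω ^ 2 ∈ Q.ring ∧
        Q.val (aeval (zz K Ω) τ / zz K Ω ^ 2) = 0 := by
      have h4 : ∀ σ : L →ₐ[RatFunc K] Ω, σ h / zz K Ω ^ 2 ∈ Q.ring.nonunits := by
        intro σ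
        let P : Place K L := Q.comap (σ.restrictScalars K)
        have hP : zz K L ∉ P.ring := by
          show σ (zz K L) ∉ Q.ring
          rw [hzσ]; exact hQ
        have h5 := (Place.comap_nonunits Q (σ.restrictScalars K) _).1 (hinf P hP)
        have h6 : (σ.restrictScalars K) (h / zz K L ^ 2) = σ h / zz K Ω ^ 2 := by
          show σ (h / zz K L ^ 2) = _
          rw [map_div₀, map_pow, hzσ]
        rwa [h6] at h5
      have h5 : aeval (zz K Ω) τ / zz K Ω ^ 2 = ∑ σ : L →ₐ[RatFunc K] Ω, σ h / zz K Ω ^ 2 := by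
        rw [hsum, Finset.sum_div]
      rw [h5]
      refine ⟨Q.sum_mem _ _ fun σ _ => Q.nonunits_mem (h4 σ), ?_⟩
      rw [Q.val_sum _ _ fun σ _ => Q.nonunits_mem (h4 σ)]
      exact Finset.sum_eq_zero fun σ _ => Q.val_eq_zero_of_nonunit (h4 σ)
    by_contra hdeg
    push Not at hdeg
    have hτ0 : τ ≠ 0 := by
      rintro rfl
      simp at hdeg
    have hrev : aeval (zz K Ω)⁻¹ τ.reverse * zz K Ω ^ τ.natDegree = aeval (zz K Ω) τ := by
      let _ := invertibleOfNonzero hz0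
      have := eval₂_reverse_mul_pow (algebraMap K Ω) (zz K Ω) τ
      rwa [invOf_eq_inv] at this
    have hr1 : aeval (zz K Ω)⁻¹ τ.reverse ∈ Q.ring := Q.aeval_mem hw _
    have hr2 : Q.val (aeval (zz K Ω)⁻¹ τ.reverse) = τ.leadingCoeff := by
      rw [Q.val_aeval hw, hwv, ← coeff_zero_eq_eval_zero, coeff_zero_reverse]
    obtain ⟨d, hd⟩ := Nat.exists_eq_add_of_le hdeg
    have h6 : aeval (zz K Ω)⁻¹ τ.reverse =
        (aeval (zz K Ω) τ / zz K Ω ^ 2) * ((zz K Ω)⁻¹) ^ d := by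
      have hz2' : zz K Ω ^ 2 ≠ 0 := pow_ne_zero _ hz0
      have hzd' : zz K Ω ^ d ≠ 0 := pow_ne_zero _ hz0
      rw [← hrev, hd, pow_add, inv_pow, mul_comm (zz K Ω ^ 2), ← mul_assoc,
        mul_div_cancel_right₀ _ hz2', mul_inv_cancel_right₀ hzd']
    have h7 : Q.val (aeval (zz K Ω)⁻¹ τ.reverse) = 0 := by
      rw [h6, Q.val_mul h3.1 (Q.pow_mem hw d), h3.2, zero_mul]
    rw [hr2] at h7
    exact hτ0 (leadingCoeff_eq_zero.1 h7)

end PUC
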