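import Pool.Agent.H77.PUC.StmtsE

/-!
# Board puc, block UNC: composita of unramified extensions are unramified
-/

set_option autoImplicit false

universe u

namespace PUC

open Polynomial

theorem UNC_trans {K F : Type u} [Field K] [IsAlgClosed K] [Field F] [Algebra K F]
    (P : Place K F) (t : F) (ht : t ≠ 0) (htn : t ∈ P.ring.nonunits) : Transcendental K t := by
  intro hal
  have hint : IsIntegral K t := hal.isIntegral
  have hs := IsAlgClosed.splits (minpoly K t)
  have hd : (minpoly K t).degree = 1 :=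
    IsAlgClosed.degree_eq_one_of_irreducible K (minpoly.irreducible hint)
  obtain ⟨c, hc⟩ := minpoly.mem_range_of_degree_eq_one K t hd
  rw [← hc] at htn
  have h0 := P.alg_nonunit htn
  rw [h0, map_zero] at hc
  exact ht hc.symm

/-- the coarsening obtained by inverting `t` -/
def UNC_loc {K N : Type u} [Field K] [Field N] [Algebra K N] (P : Place K N) (t : N)
    (ht : t ∈ P.ring) : ValuationSubring N where
  carrier := {g | ∃ m : ℕ, g * t ^ m ∈ P.ring}
  mul_mem' := by
    rintro a b ⟨m, hm⟩ ⟨n, hn⟩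
    refine ⟨m + n, ?_⟩
    have e : a * b * t ^ (m + n) = (a * t ^ m) * (b * t ^ n) := by ring
    rw [e]
    exact P.ring.mul_mem _ _ hm hn
  one_mem' := ⟨0, by simp [P.ring.one_mem]⟩
  add_mem' := by
    rintro a b ⟨m, hm⟩ ⟨n, hn⟩
    refine ⟨m + n, ?_⟩
    have e : (a + b) * t ^ (m + n) = (a * t ^ m) * t ^ n + (b * t ^ n) * t ^ m := by ring
    rw [e]
    exact P.ring.add_mem _ _ (P.ring.mul_mem _ _ hm (P.pow_mem ht n))
      (P.ring.mul_mem _ _ hn (P.pow_mem ht m))
  zero_mem' := ⟨0, by simp [P.ring.zero_mem]⟩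
  neg_mem' := by
    rintro a ⟨m, hm⟩
    refine ⟨m, ?_⟩
    rw [neg_mul]
    exact P.ring.neg_mem _ hm
  mem_or_inv_mem' := by
    intro a
    rcases P.mem_or_inv a with h | h
    · exact Or.inl ⟨0, by simpa using h⟩
    · exact Or.inr ⟨0, by simpa using h⟩

theorem UNC_mem_loc {K N : Type u} [Field K] [Field N] [Algebra K N] (P : Place K N) (t : N)
    (ht : t ∈ P.ring) (g : N) : g ∈ UNC_loc P t ht ↔ ∃ m : ℕ, g * t ^ m ∈ P.ring := Iff.rfl

/-- inverses of non-zero polynomials in `t` -/
theorem UNC_inv {K N : Type u} [Field K] [Field N] [Algebra K N] (P : Place K N) (t : N)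
    (ht0 : t ≠ 0) (ht : t ∈ P.ring) (hv : P.val t = 0) (s : K[X]) :
    (aeval t s)⁻¹ ∈ UNC_loc P t ht := by
  rw [UNC_mem_loc]
  by_cases hs : s = 0
  · exact ⟨0, by simp [hs, P.ring.zero_mem]⟩
  obtain ⟨q, hq, hnd⟩ := exists_eq_pow_rootMultiplicity_mul_and_not_dvd s hs 0
  rw [dvd_iff_isRoot, IsRoot.def] at hnd
  refine ⟨rootMultiplicity 0 s, ?_⟩
  have h1 : aeval t s = t ^ rootMultiplicity 0 s * aeval t q := by
    conv_lhs => rw [hq]
    simp
  have h2 : (aeval t s)⁻¹ * t ^ rootMultiplicity 0 s = (aeval t q)⁻¹ := by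
    rw [h1, mul_inv, mul_comm, ← mul_assoc, mul_inv_cancel₀ (pow_ne_zero _ ht0), one_mul]
  rw [h2]
  apply P.inv_mem_of_val (P.aeval_mem ht q)
  rw [P.val_aeval ht, hv]
  exact hnd

theorem UNC_arch {K F N : Type u} [Field K] [IsAlgClosed K] [Field F] [Algebra K F] [Field N]
    [Algebra F N] [Algebra K N] [IsScalarTower K F N] [Algebra.IsAlgebraic F N]
    (h2 : ∀ t : F, Transcendental K t → Algebra.IsAlgebraic (IntermediateField.adjoin K {t}) F)
    (P : Place K N) (t : F) (ht : t ≠ 0) (htn : algebraMap F N t ∈ P.ring.nonunits) (g : N) :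
    ∃ m : ℕ, g * (algebraMap F N t) ^ m ∈ P.ring := by
  have htr : algebraMap F N t ∈ P.ring := P.nonunits_mem htn
  have hv : P.val (algebraMap F N t) = 0 := P.val_eq_zero_of_nonunit htn
  have ht0 : algebraMap F N t ≠ 0 := by simpa using ht
  rw [← UNC_mem_loc P _ htr]
  have htr' : Transcendental K t := by
    apply UNC_trans (P.comap (IsScalarTower.toAlgHom K F N)) t ht
    show t ∈ (P.ring.comap ((IsScalarTower.toAlgHom K F N : F →ₐ[K] N) : F →+* N)).nonunits
    rw [Place.comap_nonunits]
    exact htn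
  have halg := h2 t htr'
  set Kt := IntermediateField.adjoin K {t}
  have hsub : ∀ a : Kt, algebraMap F N (a : F) ∈ UNC_loc P _ htr := by
    intro a
    obtain ⟨r, s, hrs⟩ := (IntermediateField.mem_adjoin_simple_iff K (a : F)).1 a.2
    rw [hrs, map_div₀, div_eq_mul_inv]
    apply (UNC_loc P _ htr).mul_mem
    · rw [UNC_mem_loc]
      refine ⟨0, ?_⟩
      rw [pow_zero, mul_one, ← aeval_algebraMap_apply]
      exact P.aeval_mem htr r
    · rw [← aeval_algebraMap_apply]
      exact UNC_inv P _ ht0 htr hv s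
  have halg2 : Algebra.IsAlgebraic Kt N := Algebra.IsAlgebraic.trans Kt F N
  let A : Subalgebra Kt N := { (UNC_loc P _ htr).toSubring.toSubsemiring with
    algebraMap_mem' := hsub }
  rcases (UNC_loc P _ htr).mem_or_inv_mem g with h | h
  · exact h
  · have h3 : (⟨g⁻¹, h⟩ : A).1⁻¹ ∈ A :=
      Subalgebra.inv_mem_of_algebraic A (Algebra.IsAlgebraic.isAlgebraic (R := Kt) (g⁻¹ : N))
    have h4 : (⟨g⁻¹, h⟩ : A).1⁻¹ = g := inv_inv g
    rw [h4] at h3
    exact h3

/-- expansions in `t` of elements of an unramified extension -/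
theorem UNC_exp {K F L N : Type u} [Field K] [IsAlgClosed K] [Field F] [Algebra K F] [Field N]
    [Algebra F N] [Algebra K N] [IsScalarTower K F N] [Algebra.IsAlgebraic F N]
    [Field L] [Algebra F L] [Algebra K L] [IsScalarTower K F L]
    (h2 : ∀ t : F, Transcendental K t → Algebra.IsAlgebraic (IntermediateField.adjoin K {t}) F)
    (P : Place K N) (t : F) (ht : t ≠ 0) (htn : algebraMap F N t ∈ P.ring.nonunits)
    (hgen : ∀ f : F, algebraMap F N f ∈ P.ring.nonunits →
      ∃ h : F, algebraMap F N h ∈ P.ring ∧ f = h * t)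
    (hL : Unr K F L) (j : L →ₐ[F] N) (f : L) (n : ℕ) :
    ∃ g : F, (j f - algebraMap F N g) / (algebraMap F N t) ^ n ∈ P.ring := by
  have ht0 : algebraMap F N t ≠ 0 := by simpa using ht
  have key : ∀ (n : ℕ) (f : L), j f ∈ P.ring →
      ∃ g : F, (j f - algebraMap F N g) / (algebraMap F N t) ^ n ∈ P.ring := by
    intro n
    induction n with
    | zero => intro f hf; exact ⟨0, by simpa using hf⟩
    | succ n ih =>
      intro f hf
      let PL : Place K L := P.comap (j.restrictScalars K)
      have hfL : f ∈ PL.ring := hf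
      have h3 := PL.sub_val hfL
      obtain ⟨t', ht', h, hh, he⟩ := hL PL _ h3
      have ht'' : algebraMap F N t' ∈ P.ring.nonunits := by
        have h4 := (Place.comap_nonunits P (j.restrictScalars K) (algebraMap F L t')).1 ht'
        simpa using h4
      obtain ⟨h', hh', he'⟩ := hgen t' ht''
      have hmem : j (h * algebraMap F L h') ∈ P.ring := by
        rw [map_mul, AlgHom.commutes]
        exact P.ring.mul_mem _ _ hh hh'
      obtain ⟨g1, hg1⟩ := ih _ hmem
      refine ⟨algebraMap K F (PL.val f) + g1 * t, ?_⟩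
      have e1 : j f = algebraMap K N (PL.val f) +
          j (h * algebraMap F L h') * algebraMap F N t := by
        have e2 : f = algebraMap K L (PL.val f) + h * algebraMap F L t' := by
          rw [← he]; ring
        conv_lhs => rw [e2]
        rw [map_add, map_mul, map_mul, AlgHom.commutes, AlgHom.commutes, he', map_mul,
          IsScalarTower.algebraMap_apply K F L, AlgHom.commutes,
          ← IsScalarTower.algebraMap_apply K F N]
        ring
      have e3 : (j f - algebraMap F N (algebraMap K F (PL.val f) + g1 * t)) /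
          (algebraMap F N t) ^ (n + 1) =
          (j (h * algebraMap F L h') - algebraMap F N g1) / (algebraMap F N t) ^ n := by
        rw [map_add, map_mul, ← IsScalarTower.algebraMap_apply K F N, e1, pow_succ]
        field_simp
        ring
      rw [e3]
      exact hg1
  obtain ⟨m, hm⟩ := UNC_arch h2 P t ht htn (j f)
  have e1 : j (f * algebraMap F L t ^ m) = j f * algebraMap F N t ^ m := by
    rw [map_mul, map_pow, AlgHom.commutes]
  obtain ⟨g, hg⟩ := key (n + m) (f * algebraMap F L t ^ m) (by rw [e1]; exact hm)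
  refine ⟨g / t ^ m, ?_⟩
  rw [e1] at hg
  have e2 : (j f * algebraMap F N t ^ m - algebraMap F N g) / algebraMap F N t ^ (n + m) =
      (j f - algebraMap F N (g / t ^ m)) / algebraMap F N t ^ n := by
    rw [map_div₀, map_pow, pow_add]
    field_simp
  rwa [e2] at hg

/-- the ring of elements with expansions -/
def UNC_ring {K F N : Type u} [Field K] [IsAlgClosed K] [Field F] [Algebra K F] [Field N]
    [Algebra F N] [Algebra K N] [IsScalarTower K F N] [Algebra.IsAlgebraic F N]
    (h2 : ∀ t : F, Transcendental K t → Algebra.IsAlgebraic (IntermediateField.adjoin K {t}) F)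
    (P : Place K N) (t : F) (ht : t ≠ 0) (htn : algebraMap F N t ∈ P.ring.nonunits) :
    Subalgebra F N where
  carrier := {f | ∀ n : ℕ, ∃ g : F, (f - algebraMap F N g) / (algebraMap F N t) ^ n ∈ P.ring}
  mul_mem' := by
    intro a b ha hb n
    have ht0 : algebraMap F N t ≠ 0 := by simpa using ht
    obtain ⟨m2, hm2⟩ := UNC_arch h2 P t ht htn b
    obtain ⟨g1, hg1⟩ := ha (n + m2)
    obtain ⟨m1, hm1⟩ := UNC_arch h2 P t ht htn (algebraMap F N g1)
    obtain ⟨g2, hg2⟩ := hb (n + m1)
    refine ⟨g1 * g2, ?_⟩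
    have e : (a * b - algebraMap F N (g1 * g2)) / (algebraMap F N t) ^ n =
        ((a - algebraMap F N g1) / (algebraMap F N t) ^ (n + m2)) * (b * algebraMap F N t ^ m2) +
        (algebraMap F N g1 * algebraMap F N t ^ m1) *
          ((b - algebraMap F N g2) / (algebraMap F N t) ^ (n + m1)) := by
      rw [map_mul, pow_add, pow_add]
      field_simp
      ring
    rw [e]
    exact P.ring.add_mem _ _ (P.ring.mul_mem _ _ hg1 hm2) (P.ring.mul_mem _ _ hm1 hg2)
  add_mem' := by
    intro a b ha hb n
    obtain ⟨g1, hg1⟩ := ha n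
    obtain ⟨g2, hg2⟩ := hb n
    refine ⟨g1 + g2, ?_⟩
    have e : (a + b - algebraMap F N (g1 + g2)) / (algebraMap F N t) ^ n =
        (a - algebraMap F N g1) / (algebraMap F N t) ^ n +
        (b - algebraMap F N g2) / (algebraMap F N t) ^ n := by
      rw [map_add]; ring
    rw [e]
    exact P.ring.add_mem _ _ hg1 hg2
  algebraMap_mem' := by
    intro r n
    exact ⟨r, by simp [P.ring.zero_mem]⟩

theorem UNC_sup {K F Ω : Type u} [Field K] [IsAlgClosed K] [Field F]
    [Algebra K F] [Field Ω] [Algebra F Ω] [Algebra K Ω] [IsScalarTower K F Ω]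
    [Algebra.IsAlgebraic F Ω]
    (h1 : ∀ P : Place K F, ∃ t : F, t ≠ 0 ∧ IsUnif P t)
    (h2 : ∀ t : F, Transcendental K t → Algebra.IsAlgebraic (IntermediateField.adjoin K {t}) F)
    (L M : IntermediateField F Ω) (hL : Unr K F L) (hM : Unr K F M) :
    Unr K F (L ⊔ M : IntermediateField F Ω) := by
  intro P f hf
  let N : IntermediateField F Ω := L ⊔ M
  let ι : F →ₐ[K] N := IsScalarTower.toAlgHom K F N
  obtain ⟨t, ht, htn, hgen⟩ := h1 (P.comap ι)
  have htn' : algebraMap F N t ∈ P.ring.nonunits := (Place.comap_nonunits P ι t).1 htn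
  have hgen' : ∀ f : F, algebraMap F N f ∈ P.ring.nonunits →
      ∃ h : F, algebraMap F N h ∈ P.ring ∧ f = h * t := by
    intro f hf
    obtain ⟨h, hh, he⟩ := hgen f ((Place.comap_nonunits P ι f).2 hf)
    exact ⟨h, hh, he⟩
  let R : Subalgebra F N := UNC_ring h2 P t ht htn'
  have hLR : L.toSubalgebra ≤ R.map N.val := by
    intro x hx
    let j : L →ₐ[F] N := IntermediateField.inclusion le_sup_left
    refine ⟨j ⟨x, hx⟩, ?_, rfl⟩
    intro n
    exact UNC_exp h2 P t ht htn' hgen' hL j ⟨x, hx⟩ n
  have hMR : M.toSubalgebra ≤ R.map N.val := by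
    intro x hx
    let j : M →ₐ[F] N := IntermediateField.inclusion le_sup_right
    refine ⟨j ⟨x, hx⟩, ?_, rfl⟩
    intro n
    exact UNC_exp h2 P t ht htn' hgen' hM j ⟨x, hx⟩ n
  have hN : (L ⊔ M).toSubalgebra ≤ R.map N.val := by
    rw [IntermediateField.sup_toSubalgebra_of_isAlgebraic_left]
    exact sup_le hLR hMR
  obtain ⟨r, hr, hrf⟩ := hN f.2
  have hrf' : r = f := Subtype.ext hrf
  subst hrf'
  obtain ⟨g, hg⟩ := hr 1
  have ht0 : algebraMap F N t ≠ 0 := by simpa using ht
  rw [pow_one] at hg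
  have e1 : r - algebraMap F N g = (r - algebraMap F N g) / algebraMap F N t * algebraMap F N t := by
    field_simp
  have hgn : algebraMap F N g ∈ P.ring.nonunits := by
    have h3 : r - algebraMap F N g ∈ P.ring.nonunits := by
      rw [e1, mul_comm]
      exact P.nonunits_mul htn' hg
    have h4 := (P.ring.nonunits).sub_mem hf h3
    have e2 : r - (r - algebraMap F N g) = algebraMap F N g := by ring
    rwa [e2] at h4
  obtain ⟨h', hh', he'⟩ := hgen' g hgn
  refine ⟨t, htn', (r - algebraMap F N g) / algebraMap F N t + algebraMap F N h',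
    P.ring.add_mem _ _ hg hh', ?_⟩
  have e3 : algebraMap F N g = algebraMap F N h' * algebraMap F N t := by
    rw [← map_mul, ← he']
  calc r = (r - algebraMap F N g) + algebraMap F N g := by ring
    _ = (r - algebraMap F N g) / algebraMap F N t * algebraMap F N t +
        algebraMap F N h' * algebraMap F N t := by rw [← e1, ← e3]
    _ = _ := by ring

theorem sUnc (hplx : SPlx.{u}) : SUnc.{u} := by
  intro K F Ω _ _ _ _ _ _ _ _ _ _ h1 h2
  refine ⟨fun L M hL hM => UNC_sup h1 h2 L M hL hM, ?_⟩
  intro L M hLM hM P f hf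
  let _ : Algebra L M := (IntermediateField.inclusion hLM).toRingHom.toAlgebra
  have _ : IsScalarTower K L M := IsScalarTower.of_algebraMap_eq fun _ => rfl
  have _ : IsScalarTower F L M := IsScalarTower.of_algebraMap_eq fun _ => rfl
  have _ : Algebra.IsAlgebraic L M := Algebra.IsAlgebraic.tower_top (K := F) L
  obtain ⟨P', hP'⟩ := hplx K L M P
  subst hP'
  rw [show ((P'.comap (IsScalarTower.toAlgHom K L M)).ring) =
    P'.ring.comap ((IsScalarTower.toAlgHom K L M : L →ₐ[K] M) : L →+* M) from rfl,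
    Place.comap_nonunits] at hf
  obtain ⟨t, ht, h, hh, he⟩ := hM P' _ hf
  have ht' : algebraMap F L t ∈ (P'.comap (IsScalarTower.toAlgHom K L M)).ring.nonunits := by
    show _ ∈ (P'.ring.comap ((IsScalarTower.toAlgHom K L M : L →ₐ[K] M) : L →+* M)).nonunits
    rw [Place.comap_nonunits]
    exact ht
  by_cases h0 : t = 0
  · refine ⟨0, ?_, 0, Subring.zero_mem _, ?_⟩
    · rw [← h0]; exact ht'
    · rw [h0, map_zero, mul_zero] at he
      rw [zero_mul]
      exact (map_eq_zero (algebraMap L M)).1 he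
  · have h0L : algebraMap F L t ≠ 0 := by simpa using h0
    have h0M : algebraMap F M t ≠ 0 := by simpa using h0
    refine ⟨t, ht', f / algebraMap F L t, ?_, ?_⟩
    · show algebraMap L M (f / algebraMap F L t) ∈ P'.ring
      have e1 : algebraMap L M (f / algebraMap F L t) = h := by
        rw [map_div₀, ← IsScalarTower.algebraMap_apply F L M]
        rw [show algebraMap L M f = h * algebraMap F M t from he]
        field_simp
      rw [e1]; exact hh
    · field_simp

end PUC
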